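import Pool.Agent.W497.FS.Tough

set_option autoImplicit false
set_option linter.unusedSectionVars false
set_option linter.unusedVariables false

/-! # Flag normal pseudomanifolds: suspensions and inverse edge subdivisions -/

namespace Pool.Agent.TH417.Gal

open Pool.Agent.W497.FS

variable {α : Type} [DecidableEq α] {H : SimpleGraph α}

/-- the unique non-neighbour of `v` is adjacent to the link of `v` -/
theorem adj_of_nn_singleton {d : ℕ} {W : Finset α} (h : NP H d W) {v z : α} (hv : v ∈ W)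
    (hz : nn H W v = {z}) {u : α} (hu : u ∈ lk H W v) : H.Adj z u := by
  obtain ⟨e, rfl, he⟩ := h.lk' (lk_subset hu)
  have hvu : v ∈ lk H W u := mem_lk.2 ⟨hv, (mem_lk.1 hu).2.symm⟩
  obtain ⟨u', h1, h2, h3⟩ := he.exists_nonadj hvu
  have : u' ∈ nn H W v := mem_nn.2 ⟨lk_subset h1, h2, h3⟩
  rw [hz, Finset.mem_singleton] at this
  rw [← this]
  exact (mem_lk.1 h1).2.symm

/-- if the link of `v` lies in the link of `z`, the complex is a suspension -/
theorem nn_of_lk_subset {d : ℕ} {W : Finset α} (h : NP H d W) {v z : α} (hv : v ∈ W) (hz : z ∈ W)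
    (hvz : v ≠ z) (hsub : lk H W v ⊆ lk H W z) : nn H W v = {z} := by
  obtain ⟨e, rfl, he⟩ := h.lk' hv
  have hnadj : ¬ H.Adj v z := fun hadj => not_mem_lk_self (hsub (mem_lk.2 ⟨hz, hadj⟩))
  have hQ1 : Q H 1 ({v, z} : Finset α) := by
    refine ⟨by rw [Finset.card_pair hvz], ?_⟩
    intro x hx y hy hxy
    rw [Finset.mem_insert, Finset.mem_singleton] at hx hy
    rcases hx with rfl | rfl <;> rcases hy with rfl | rfl
    · exact hxy.ne rfl
    · exact hnadj hxy
    · exact hnadj hxy.symm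
    · exact hxy.ne rfl
  have hfull : Full H ({v, z} : Finset α) (lk H W v) := by
    intro a ha b hb
    rw [Finset.mem_insert, Finset.mem_singleton] at ha
    rcases ha with rfl | rfl
    · exact (mem_lk.1 hb).2
    · exact (mem_lk.1 (hsub hb)).2
  have hQ := hQ1.join he.q hfull
  rw [add_comm 1 e] at hQ
  have hT : ({v, z} : Finset α) ∪ lk H W v ⊆ W := by
    intro x hx
    rcases Finset.mem_union.1 hx with hx | hx
    · rw [Finset.mem_insert, Finset.mem_singleton] at hx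
      rcases hx with rfl | rfl
      · exact hv
      · exact hz
    · exact lk_subset hx
  have hEq := closed_eq h hT hQ
  ext x
  rw [Finset.mem_singleton]
  constructor
  · intro hx
    obtain ⟨h1, h2, h3⟩ := mem_nn.1 hx
    have h4 : x ∈ ({v, z} : Finset α) ∪ lk H W v := by rw [hEq]; exact h1
    rcases Finset.mem_union.1 h4 with h5 | h5
    · rw [Finset.mem_insert, Finset.mem_singleton] at h5
      rcases h5 with rfl | rfl
      · exact absurd rfl h2
      · rfl
    · exact absurd (mem_lk.1 h5).2 h3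
  · rintro rfl
    exact mem_nn.2 ⟨hz, hvz.symm, hnadj⟩

/-- invariance under isomorphisms -/
theorem NP_image {H H' : SimpleGraph α} {d : ℕ} {W : Finset α} (f : α → α)
    (hinj : ∀ a ∈ W, ∀ b ∈ W, f a = f b → a = b)
    (hadj : ∀ a ∈ W, ∀ b ∈ W, H.Adj a b ↔ H'.Adj (f a) (f b)) (h : NP H d W) :
    NP H' d (W.image f) := by
  induction d generalizing W with
  | zero =>
    have h0 : W = ∅ := h
    change W.image f = ∅
    rw [h0, Finset.image_empty]
  | succ d ih =>
    rcases d with _ | d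
    · have h' : W.card = 2 ∧ ∀ x ∈ W, ∀ y ∈ W, ¬ H.Adj x y := h
      refine ⟨?_, ?_⟩
      · rw [Finset.card_image_of_injOn (fun a ha b hb hab => hinj a ha b hb hab)]
        exact h'.1
      · intro x hx y hy hxy
        obtain ⟨a, ha, rfl⟩ := Finset.mem_image.1 hx
        obtain ⟨b, hb, rfl⟩ := Finset.mem_image.1 hy
        exact h'.2 a ha b hb ((hadj a ha b hb).2 hxy)
    · refine ⟨h.nonempty.image f, fun A hA hne hneq => ?_, fun u hu => ?_⟩
      · classical
        have h1 : W.filter (fun w => f w ∈ A) ⊆ W := Finset.filter_subset _ _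
        have h2 : (W.filter (fun w => f w ∈ A)).Nonempty := by
          obtain ⟨a, ha⟩ := hne
          obtain ⟨w, hw, rfl⟩ := Finset.mem_image.1 (hA ha)
          exact ⟨w, Finset.mem_filter.2 ⟨hw, ha⟩⟩
        have h3 : W.filter (fun w => f w ∈ A) ≠ W := by
          intro hEq
          apply hneq
          refine Finset.Subset.antisymm hA (fun y hy => ?_)
          obtain ⟨w, hw, rfl⟩ := Finset.mem_image.1 hy
          rw [← hEq] at hw
          exact (Finset.mem_filter.1 hw).2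
        obtain ⟨a, ha, b, hb, hbA, hab⟩ := h.2.1 _ h1 h2 h3
        refine ⟨f a, (Finset.mem_filter.1 ha).2, f b, Finset.mem_image_of_mem f hb, fun hfb => ?_,
          (hadj a (h1 ha) b hb).1 hab⟩
        exact hbA (Finset.mem_filter.2 ⟨hb, hfb⟩)
      · obtain ⟨v, hv, rfl⟩ := Finset.mem_image.1 hu
        have h1 : lk H' (W.image f) (f v) = (lk H W v).image f := by
          ext y
          rw [mem_lk, Finset.mem_image, Finset.mem_image]
          constructor
          · rintro ⟨⟨w, hw, rfl⟩, h2⟩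
            exact ⟨w, mem_lk.2 ⟨hw, (hadj v hv w hw).2 h2⟩, rfl⟩
          · rintro ⟨w, hw, rfl⟩
            obtain ⟨h2, h3⟩ := mem_lk.1 hw
            exact ⟨⟨w, h2, rfl⟩, (hadj v hv w h2).1 h3⟩
        rw [h1]
        exact ih (fun a ha b hb => hinj a (lk_subset ha) b (lk_subset hb))
          (fun a ha b hb => hadj a (lk_subset ha) b (lk_subset hb)) (h.lk hv)

/-- dependence on the graph -/
theorem NP_congr' {H H' : SimpleGraph α} {d : ℕ} {W : Finset α}
    (hc : ∀ x ∈ W, ∀ z ∈ W, H.Adj x z ↔ H'.Adj x z) (h : NP H d W) : NP H' d W := by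
  have := NP_image (H := H) (H' := H') (W := W) id (fun a _ b _ hab => hab) hc h
  rwa [Finset.image_id] at this

/-- the graph with the edge `x x'` added -/
def addE (H : SimpleGraph α) (x x' : α) : SimpleGraph α where
  Adj a b := H.Adj a b ∨ (a = x ∧ b = x' ∧ x ≠ x') ∨ (a = x' ∧ b = x ∧ x ≠ x')
  symm := ⟨fun a b h => by
    rcases h with h | ⟨h1, h2, h3⟩ | ⟨h1, h2, h3⟩
    · exact Or.inl h.symm
    · exact Or.inr (Or.inr ⟨h2, h1, h3⟩)
    · exact Or.inr (Or.inl ⟨h2, h1, h3⟩)⟩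
  loopless := ⟨fun a h => by
    rcases h with h | ⟨h1, h2, h3⟩ | ⟨h1, h2, h3⟩
    · exact h.ne rfl
    · exact h3 (h1.symm.trans h2)
    · exact h3 (h2.symm.trans h1)⟩

theorem addE_adj {x x' a b : α} : (addE H x x').Adj a b ↔
    H.Adj a b ∨ (a = x ∧ b = x' ∧ x ≠ x') ∨ (a = x' ∧ b = x ∧ x ≠ x') := Iff.rfl

theorem addE_comm {x x' : α} : addE H x x' = addE H x' x := by
  ext a b
  rw [addE_adj, addE_adj]
  constructor
  · rintro (h | ⟨h1, h2, h3⟩ | ⟨h1, h2, h3⟩)
    · exact Or.inl h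
    · exact Or.inr (Or.inr ⟨h1, h2, h3.symm⟩)
    · exact Or.inr (Or.inl ⟨h1, h2, h3.symm⟩)
  · rintro (h | ⟨h1, h2, h3⟩ | ⟨h1, h2, h3⟩)
    · exact Or.inl h
    · exact Or.inr (Or.inr ⟨h1, h2, h3.symm⟩)
    · exact Or.inr (Or.inl ⟨h1, h2, h3.symm⟩)

/-- `v` is the vertex of an edge subdivision of the (absent) edge `x x'` -/
structure SD (H : SimpleGraph α) (W : Finset α) (v x x' : α) : Prop where
  hv : v ∈ W
  hx : x ∈ W
  hx' : x' ∈ W
  avx : H.Adj v x
  avx' : H.Adj v x'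
  ne : x ≠ x'
  nadj : ¬ H.Adj x x'
  susp : ∀ u ∈ W, H.Adj v u → u ≠ x → u ≠ x' → H.Adj u x ∧ H.Adj u x'
  no : ∀ z ∈ W, H.Adj z x → H.Adj z x' → z ≠ v → H.Adj v z

theorem SD.symm {W : Finset α} {v x x' : α} (h : SD H W v x x') : SD H W v x' x :=
  ⟨h.hv, h.hx', h.hx, h.avx', h.avx, h.ne.symm, fun h1 => h.nadj h1.symm,
    fun u hu h1 h2 h3 => (h.susp u hu h1 h3 h2).symm, fun z hz h1 h2 h3 => h.no z hz h2 h1 h3⟩

theorem SD.lk {W : Finset α} {v x x' : α} (h : SD H W v x x') {u : α} (hu : u ∈ W)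
    (hvu : H.Adj v u) (h1 : u ≠ x) (h2 : u ≠ x') : SD H (lk H W u) v x x' := by
  obtain ⟨h3, h4⟩ := h.susp u hu hvu h1 h2
  exact ⟨mem_lk.2 ⟨h.hv, hvu.symm⟩, mem_lk.2 ⟨h.hx, h3⟩, mem_lk.2 ⟨h.hx', h4⟩, h.avx, h.avx', h.ne,
    h.nadj, fun w hw => h.susp w (lk_subset hw), fun z hz => h.no z (lk_subset hz)⟩

/-- the link of `x` after removing `v` and adding the edge `x x'` -/
theorem SD.lk_x {W : Finset α} {v x x' : α} (h : SD H W v x x') :
    Pool.Agent.W497.FS.lk (addE H x x') (W.erase v) x =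
      (Pool.Agent.W497.FS.lk H W x).image (fun w => if w = v then x' else w) := by
  ext y
  rw [mem_lk, Finset.mem_erase, Finset.mem_image, addE_adj]
  constructor
  · rintro ⟨⟨h1, h2⟩, h3 | ⟨h3, h4, h5⟩ | ⟨h3, h4, h5⟩⟩
    · exact ⟨y, mem_lk.2 ⟨h2, h3⟩, if_neg h1⟩
    · exact ⟨v, mem_lk.2 ⟨h.hv, h.avx.symm⟩, by rw [if_pos rfl, h4]⟩
    · exact absurd h3 h5
  · rintro ⟨w, hw, h1⟩
    obtain ⟨h2, h3⟩ := mem_lk.1 hw
    by_cases hwv : w = v
    · rw [if_pos hwv] at h1
      subst h1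
      exact ⟨⟨h.avx'.ne.symm, h.hx'⟩, Or.inr (Or.inl ⟨rfl, rfl, h.ne⟩)⟩
    · rw [if_neg hwv] at h1
      subst h1
      exact ⟨⟨hwv, h2⟩, Or.inl h3⟩

theorem SD.np_x {d : ℕ} {W : Finset α} {v x x' : α} (h : SD H W v x x')
    (hW : NP H (d + 1) W) :
    NP (addE H x x') d (Pool.Agent.W497.FS.lk (addE H x x') (W.erase v) x) := by
  rw [h.lk_x]
  have key : ∀ w ∈ Pool.Agent.W497.FS.lk H W x, w ≠ v → (H.Adj v w ↔ (addE H x x').Adj x' w) := by
    intro w hw hwv
    obtain ⟨h2, h3⟩ := mem_lk.1 hw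
    constructor
    · intro h4
      have h5 : w ≠ x' := fun h6 => h.nadj (h6 ▸ h3)
      exact Or.inl (h.susp w h2 h4 h3.ne.symm h5).2.symm
    · rintro (h4 | ⟨h4, h5, h6⟩ | ⟨h4, h5, h6⟩)
      · exact h.no w h2 h3.symm h4.symm hwv
      · exact absurd h4.symm h6
      · exact absurd h5 h3.ne.symm
  refine NP_image _ ?_ ?_ (hW.lk h.hx)
  · intro a ha b hb hab
    have ha' := (mem_lk.1 ha).2
    have hb' := (mem_lk.1 hb).2
    by_cases h1 : a = v
    · by_cases h2 : b = v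
      · rw [h1, h2]
      · rw [if_pos h1, if_neg h2] at hab
        exact absurd (hab ▸ hb') h.nadj
    · by_cases h2 : b = v
      · rw [if_neg h1, if_pos h2] at hab
        exact absurd (hab ▸ ha') h.nadj
      · rw [if_neg h1, if_neg h2] at hab
        exact hab
  · intro a ha b hb
    have ha' := (mem_lk.1 ha).2
    have hb' := (mem_lk.1 hb).2
    by_cases h1 : a = v
    · by_cases h2 : b = v
      · rw [if_pos h1, if_pos h2, h1, h2]
        exact ⟨fun h3 => absurd rfl h3.ne, fun h3 => absurd rfl h3.ne⟩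
      · rw [if_pos h1, if_neg h2, h1]
        exact key b hb h2
    · by_cases h2 : b = v
      · rw [if_neg h1, if_pos h2, h2, H.adj_comm, SimpleGraph.adj_comm (addE H x x')]
        exact key a ha h1
      · rw [if_neg h1, if_neg h2]
        constructor
        · exact fun h3 => Or.inl h3
        · rintro (h4 | ⟨h4, h5, h6⟩ | ⟨h4, h5, h6⟩)
          · exact h4
          · exact absurd h4 ha'.ne.symm
          · exact absurd h5 hb'.ne.symm

theorem SD.sconn {d : ℕ} {W : Finset α} {v x x' : α} (h : SD H W v x x') (hW : NP H (d + 2) W) :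
    SConn (addE H x x') (W.erase v) := by
  intro A hA hne hneq
  by_contra hcon
  push Not at hcon
  have hxW : x ∈ W.erase v := Finset.mem_erase.2 ⟨h.avx.ne.symm, h.hx⟩
  have hside : ∀ u ∈ W, H.Adj v u → (u ∈ A ↔ x ∈ A) := by
    intro u hu hvu
    by_cases h1 : u = x
    · rw [h1]
    have hux : (addE H x x').Adj u x := by
      by_cases h2 : u = x'
      · exact Or.inr (Or.inr ⟨h2, rfl, h.ne⟩)
      · exact Or.inl (h.susp u hu hvu h1 h2).1
    have hu' : u ∈ W.erase v := Finset.mem_erase.2 ⟨hvu.ne.symm, hu⟩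
    constructor
    · intro h3
      by_contra h4
      exact hcon u h3 x hxW h4 hux
    · intro h3
      by_contra h4
      exact hcon x h3 u hu' h4 hux.symm
  have hvA : v ∉ A := fun h1 => (Finset.mem_erase.1 (hA h1)).1 rfl
  have hAW : A ⊆ W := hA.trans (Finset.erase_subset _ _)
  by_cases hxA : x ∈ A
  · have h1 : insert v A ⊆ W := Finset.insert_subset h.hv hAW
    have h2 : insert v A ≠ W := by
      intro h3
      apply hneq
      rw [← h3, Finset.erase_insert hvA]
    obtain ⟨a, ha, b, hb, hbA, hab⟩ := hW.2.1 _ h1 (Finset.insert_nonempty _ _) h2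
    rw [Finset.mem_insert, not_or] at hbA
    rcases Finset.mem_insert.1 ha with rfl | ha
    · exact hbA.2 ((hside b hb hab).2 hxA)
    · exact hcon a ha b (Finset.mem_erase.2 ⟨hbA.1, hb⟩) hbA.2 (Or.inl hab)
  · have h2 : A ≠ W := fun h3 => hvA (h3 ▸ h.hv)
    obtain ⟨a, ha, b, hb, hbA, hab⟩ := hW.2.1 _ hAW hne h2
    by_cases hbv : b = v
    · subst hbv
      exact hxA ((hside a (hAW ha) hab.symm).1 ha)
    · exact hcon a ha b (Finset.mem_erase.2 ⟨hbv, hb⟩) hbA (Or.inl hab)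

/-- the link of a vertex not adjacent to `v` does not change -/
theorem SD.np_far {d : ℕ} {W : Finset α} {v x x' : α} (h : SD H W v x x') (hW : NP H (d + 1) W)
    {u : α} (hu : u ∈ W) (hvu : ¬ H.Adj v u) (huv : u ≠ v) :
    NP (addE H x x') d (Pool.Agent.W497.FS.lk (addE H x x') (W.erase v) u) ∧
      Pool.Agent.W497.FS.lk (addE H x x') (W.erase v) u = Pool.Agent.W497.FS.lk H W u := by
  have hux : u ≠ x := fun h1 => hvu (h1 ▸ h.avx)
  have hux' : u ≠ x' := fun h1 => hvu (h1 ▸ h.avx')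
  have h1 : Pool.Agent.W497.FS.lk (addE H x x') (W.erase v) u = Pool.Agent.W497.FS.lk H W u := by
    ext y
    rw [mem_lk, mem_lk, Finset.mem_erase, addE_adj]
    constructor
    · rintro ⟨⟨h2, h3⟩, h4 | ⟨h4, -⟩ | ⟨h4, -⟩⟩
      · exact ⟨h3, h4⟩
      · exact absurd h4 hux
      · exact absurd h4 hux'
    · rintro ⟨h2, h3⟩
      exact ⟨⟨fun h4 => hvu (h4 ▸ h3.symm), h2⟩, Or.inl h3⟩
  refine ⟨?_, h1⟩
  rw [h1]
  refine NP_congr' ?_ (hW.lk hu)
  intro a ha b hb
  constructor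
  · exact fun h3 => Or.inl h3
  · rintro (h4 | ⟨rfl, rfl, h6⟩ | ⟨rfl, rfl, h6⟩)
    · exact h4
    · exact absurd (h.no u hu (mem_lk.1 ha).2 (mem_lk.1 hb).2 huv) hvu
    · exact absurd (h.no u hu (mem_lk.1 hb).2 (mem_lk.1 ha).2 huv) hvu

/-- the link of a vertex adjacent to `v`, other than `x`, `x'` -/
theorem SD.lk_near {W : Finset α} {v x x' : α} (h : SD H W v x x') {u : α}
    (h1 : u ≠ x) (h2 : u ≠ x') :
    Pool.Agent.W497.FS.lk (addE H x x') (W.erase v) u =
      (Pool.Agent.W497.FS.lk H W u).erase v := by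
  ext y
  rw [mem_lk, Finset.mem_erase, Finset.mem_erase, mem_lk, addE_adj]
  constructor
  · rintro ⟨⟨h3, h4⟩, h5 | ⟨h5, -⟩ | ⟨h5, -⟩⟩
    · exact ⟨h3, h4, h5⟩
    · exact absurd h5 h1
    · exact absurd h5 h2
  · rintro ⟨h3, h4, h5⟩
    exact ⟨⟨h3, h4⟩, Or.inl h5⟩

/-- **inverse edge subdivisions of flag normal pseudomanifolds** -/
theorem SD.np {d : ℕ} {W : Finset α} {v x x' : α} (h : SD H W v x x') (hW : NP H (d + 2) W) :
    NP (addE H x x') (d + 2) (W.erase v) := by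
  induction d generalizing W with
  | zero =>
    refine ⟨⟨x, Finset.mem_erase.2 ⟨h.avx.ne.symm, h.hx⟩⟩, h.sconn hW, fun u hu => ?_⟩
    obtain ⟨huv, huW⟩ := Finset.mem_erase.1 hu
    by_cases h1 : u = x
    · subst h1; exact h.np_x hW
    by_cases h2 : u = x'
    · subst h2
      rw [addE_comm]
      exact h.symm.np_x hW
    by_cases h3 : H.Adj v u
    · exfalso
      obtain ⟨h4, h5⟩ := h.susp u huW h3 h1 h2
      have h6 : NP H 1 (Pool.Agent.W497.FS.lk H W u) := hW.lk huW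
      exact h6.2 v (mem_lk.2 ⟨h.hv, h3.symm⟩) x (mem_lk.2 ⟨h.hx, h4⟩) h.avx
    · exact (h.np_far hW huW h3 huv).1
  | succ d ih =>
    refine ⟨⟨x, Finset.mem_erase.2 ⟨h.avx.ne.symm, h.hx⟩⟩, h.sconn hW, fun u hu => ?_⟩
    obtain ⟨huv, huW⟩ := Finset.mem_erase.1 hu
    by_cases h1 : u = x
    · subst h1; exact h.np_x hW
    by_cases h2 : u = x'
    · subst h2
      rw [addE_comm]
      exact h.symm.np_x hW
    by_cases h3 : H.Adj v u
    · rw [h.lk_near h1 h2]
      exact ih (h.lk huW h3 h1 h2) (hW.lk huW)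
    · exact (h.np_far hW huW h3 huv).1

end Pool.Agent.TH417.Gal
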