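import Pool.Agent.TH417.Gal.A

set_option autoImplicit false
set_option linter.unusedSectionVars false
set_option linter.unusedVariables false

/-! # Degree sums -/

namespace Pool.Agent.TH417.Gal

open Pool.Agent.W497.FS

variable {α : Type} [DecidableEq α] {H : SimpleGraph α}

/-- the sum of the degrees: twice the number of edges -/
noncomputable def dg (H : SimpleGraph α) (W : Finset α) : ℕ := ∑ u ∈ W, (lk H W u).card

theorem SD.card_x {W : Finset α} {v x x' : α} (h : SD H W v x x') :
    (Pool.Agent.W497.FS.lk (addE H x x') (W.erase v) x).card =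
      (Pool.Agent.W497.FS.lk H W x).card := by
  rw [h.lk_x, Finset.card_image_of_injOn]
  intro a ha b hb hab
  have ha' := (mem_lk.1 (Finset.mem_coe.1 ha)).2
  have hb' := (mem_lk.1 (Finset.mem_coe.1 hb)).2
  dsimp only at hab
  by_cases h1 : a = v
  · by_cases h2 : b = v
    · rw [h1, h2]
    · rw [if_pos h1, if_neg h2] at hab
      exact absurd (hab ▸ hb') h.nadj
  · by_cases h2 : b = v
    · rw [if_neg h1, if_pos h2] at hab
      exact absurd (hab ▸ ha') h.nadj
    · rw [if_neg h1, if_neg h2] at hab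
      exact hab

theorem SD.dg_eq {d : ℕ} {W : Finset α} {v x x' : α} (h : SD H W v x x') (hW : NP H (d + 1) W) :
    dg H W + 2 = dg (addE H x x') (W.erase v) + 2 * (Pool.Agent.W497.FS.lk H W v).card := by
  have h1 : ∀ u ∈ W.erase v, (Pool.Agent.W497.FS.lk H W u).card =
      (Pool.Agent.W497.FS.lk (addE H x x') (W.erase v) u).card +
        (if u ∈ ((Pool.Agent.W497.FS.lk H W v).erase x).erase x' then 1 else 0) := by
    intro u hu
    obtain ⟨huv, huW⟩ := Finset.mem_erase.1 hu
    by_cases h1 : u = x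
    · subst h1
      have h2 : u ∉ ((Pool.Agent.W497.FS.lk H W v).erase u).erase x' := by
        intro h2
        rw [Finset.mem_erase, Finset.mem_erase] at h2
        exact h2.2.1 rfl
      rw [h.card_x, if_neg h2, add_zero]
    by_cases h2 : u = x'
    · subst h2
      have h2 : u ∉ ((Pool.Agent.W497.FS.lk H W v).erase x).erase u := by
        intro h2
        rw [Finset.mem_erase, Finset.mem_erase] at h2
        exact h2.1 rfl
      rw [addE_comm, h.symm.card_x, if_neg h2, add_zero]
    by_cases h3 : H.Adj v u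
    · rw [h.lk_near h1 h2, if_pos (Finset.mem_erase.2 ⟨h2, Finset.mem_erase.2 ⟨h1,
        mem_lk.2 ⟨huW, h3⟩⟩⟩)]
      have h4 : v ∈ Pool.Agent.W497.FS.lk H W u := mem_lk.2 ⟨h.hv, h3.symm⟩
      rw [Finset.card_erase_of_mem h4]
      have := Finset.card_pos.2 ⟨v, h4⟩
      omega
    · have h4 : u ∉ ((Pool.Agent.W497.FS.lk H W v).erase x).erase x' := by
        intro h4
        rw [Finset.mem_erase, Finset.mem_erase] at h4
        exact h3 (mem_lk.1 h4.2.2).2
      rw [(h.np_far hW huW h3 huv).2, if_neg h4, add_zero]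
  have h2 : dg H W = (Pool.Agent.W497.FS.lk H W v).card +
      ∑ u ∈ W.erase v, (Pool.Agent.W497.FS.lk H W u).card := by
    rw [dg, ← Finset.add_sum_erase _ _ h.hv]
  have h3 : (W.erase v) ∩ ((Pool.Agent.W497.FS.lk H W v).erase x).erase x' =
      ((Pool.Agent.W497.FS.lk H W v).erase x).erase x' := by
    rw [Finset.inter_eq_right]
    intro u hu
    rw [Finset.mem_erase, Finset.mem_erase] at hu
    exact Finset.mem_erase.2 ⟨fun h4 => not_mem_lk_self (h4 ▸ hu.2.2), lk_subset hu.2.2⟩
  have hx : x ∈ Pool.Agent.W497.FS.lk H W v := mem_lk.2 ⟨h.hx, h.avx⟩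
  have hx' : x' ∈ (Pool.Agent.W497.FS.lk H W v).erase x :=
    Finset.mem_erase.2 ⟨h.ne.symm, mem_lk.2 ⟨h.hx', h.avx'⟩⟩
  have h4 := Finset.card_pos.2 ⟨x', hx'⟩
  have h5 := Finset.card_pos.2 ⟨x, hx⟩
  rw [h2, Finset.sum_congr rfl h1, Finset.sum_add_distrib, Finset.sum_ite_mem, h3,
    Finset.sum_const, smul_eq_mul, mul_one, Finset.card_erase_of_mem hx',
    Finset.card_erase_of_mem hx, dg]
  rw [Finset.card_erase_of_mem hx] at h4
  omega

/-- suspensions: structure -/
theorem susp_union {d : ℕ} {W : Finset α} (h : NP H (d + 1) W) {q p : α} (hq : q ∈ W)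
    (hp : nn H W q = {p}) : Full H ({q, p} : Finset α) (lk H W q) ∧
      ({q, p} : Finset α) ∪ lk H W q = W ∧ q ≠ p ∧ ¬ H.Adj q p := by
  have hp' : p ∈ nn H W q := by rw [hp]; exact Finset.mem_singleton_self p
  obtain ⟨h1, h2, h3⟩ := mem_nn.1 hp'
  refine ⟨?_, ?_, h2.symm, h3⟩
  · intro a ha b hb
    rw [Finset.mem_insert, Finset.mem_singleton] at ha
    rcases ha with rfl | rfl
    · exact (mem_lk.1 hb).2
    · exact adj_of_nn_singleton h hq hp hb
  · ext x
    rw [Finset.mem_union, Finset.mem_insert, Finset.mem_singleton]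
    constructor
    · rintro ((rfl | rfl) | h4)
      · exact hq
      · exact h1
      · exact lk_subset h4
    · intro hx
      by_cases hxq : x = q
      · exact Or.inl (Or.inl hxq)
      by_cases hadj : H.Adj q x
      · exact Or.inr (mem_lk.2 ⟨hx, hadj⟩)
      · have : x ∈ nn H W q := mem_nn.2 ⟨hx, hxq, hadj⟩
        rw [hp, Finset.mem_singleton] at this
        exact Or.inl (Or.inr this)

/-- suspensions: degree sum -/
theorem susp_dg {d : ℕ} {W : Finset α} (h : NP H (d + 1) W) {q p : α} (hq : q ∈ W)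
    (hp : nn H W q = {p}) : dg H W = dg H (lk H W q) + 4 * (lk H W q).card ∧
      W.card = (lk H W q).card + 2 := by
  obtain ⟨hf, hu, hne, hnadj⟩ := susp_union h hq hp
  have hdisj := hf.disjoint
  have hcard : W.card = (lk H W q).card + 2 := by
    have h1 := congrArg Finset.card hu
    rw [Finset.card_union_of_disjoint hdisj, Finset.card_pair hne] at h1
    omega
  refine ⟨?_, hcard⟩
  set L := lk H W q with hL
  have h2 : ∀ a ∈ ({q, p} : Finset α), (lk H W a).card = L.card := by
    intro a ha
    rw [← hu, hf.lk_left ha]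
    have : lk H ({q, p} : Finset α) a = ∅ := by
      apply Finset.eq_empty_of_forall_notMem
      intro b hb
      obtain ⟨h3, h4⟩ := mem_lk.1 hb
      rw [Finset.mem_insert, Finset.mem_singleton] at ha h3
      rcases ha with rfl | rfl <;> rcases h3 with rfl | rfl
      · exact h4.ne rfl
      · exact hnadj h4
      · exact hnadj h4.symm
      · exact h4.ne rfl
    rw [this, Finset.empty_union]
  have h3 : ∀ b ∈ L, (lk H W b).card = (lk H L b).card + 2 := by
    intro b hb
    have h4 : lk H W b = ({q, p} : Finset α) ∪ lk H L b := by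
      conv_lhs => rw [← hu]
      exact hf.lk_right hb
    rw [h4, Finset.card_union_of_disjoint (Finset.disjoint_of_subset_right lk_subset hdisj),
      Finset.card_pair hne]
    omega
  have h5 : dg H W = ∑ a ∈ ({q, p} : Finset α), (lk H W a).card + ∑ b ∈ L, (lk H W b).card := by
    rw [dg, ← Finset.sum_union hdisj, hu]
  rw [h5, Finset.sum_congr rfl h2, Finset.sum_congr rfl h3, Finset.sum_const, Finset.sum_add_distrib,
    Finset.sum_const, Finset.card_pair hne, dg, smul_eq_mul, smul_eq_mul]
  ring

end Pool.Agent.TH417.Gal
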