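import Pool.Agent.TH417.Gal.B
import Pool.Agent.W605.FS.Del

set_option autoImplicit false
set_option linter.unusedSectionVars false
set_option linter.unusedVariables false

/-! # Vertex cuts of flag normal pseudomanifolds, suspension vertices -/

namespace Pool.Agent.TH417.Gal

open Pool.Agent.W497.FS

variable {α : Type} [DecidableEq α] {H : SimpleGraph α}

/-- a face does not separate a flag normal pseudomanifold of rank at least two -/
theorem clique_no_sep (n : ℕ) : ∀ (d : ℕ) {X F P : Finset α}, F.card = n → NP H (d + 2) X →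
    F ∈ cl H X → P ⊆ X → P.Nonempty → (∀ p ∈ P, p ∉ F) →
    (∀ p ∈ P, ∀ z ∈ X, z ∉ F → H.Adj p z → z ∈ P) → (∃ r ∈ X, r ∉ F ∧ r ∉ P) → False := by
  induction n with
  | zero =>
    intro d X F P hn hX hF hP hne hPF hcl ⟨r, hr, hrF, hrP⟩
    rw [Finset.card_eq_zero] at hn
    subst hn
    obtain ⟨a, ha, b, hb, hbP, hab⟩ := hX.2.1 P hP hne (fun h => hrP (h ▸ hr))
    exact hbP (hcl a ha b hb (Finset.notMem_empty b) hab)
  | succ n ih =>
    intro d X F P hn hX hF hP hne hPF hcl ⟨r, hr, hrF, hrP⟩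
    obtain ⟨hFX, hFc⟩ := mem_cl.1 hF
    by_cases hi : ∃ a ∈ F, ∀ p ∈ P, ¬ H.Adj p a
    · obtain ⟨a, ha, hap⟩ := hi
      refine ih d (F := F.erase a) (P := P) (by rw [Finset.card_erase_of_mem ha]; omega) hX
        (mem_cl.2 ⟨(Finset.erase_subset _ _).trans hFX, fun x hx y hy => hFc x
          (Finset.mem_of_mem_erase hx) y (Finset.mem_of_mem_erase hy)⟩) hP hne
        (fun p hp h => hPF p hp (Finset.mem_of_mem_erase h)) ?_
        ⟨r, hr, fun h => hrF (Finset.mem_of_mem_erase h), hrP⟩
      intro p hp z hz hzF hpz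
      refine hcl p hp z hz (fun h => ?_) hpz
      have hza : z ≠ a := fun h1 => hap p hp (h1 ▸ hpz)
      exact hzF (Finset.mem_erase.2 ⟨hza, h⟩)
    by_cases hii : ∃ a ∈ F, ∀ z ∈ X, z ∉ F → z ∉ P → ¬ H.Adj a z
    · obtain ⟨a, ha, haz⟩ := hii
      refine ih d (F := F.erase a) (P := insert a P) (by rw [Finset.card_erase_of_mem ha]; omega)
        hX (mem_cl.2 ⟨(Finset.erase_subset _ _).trans hFX, fun x hx y hy => hFc x
          (Finset.mem_of_mem_erase hx) y (Finset.mem_of_mem_erase hy)⟩)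
        (Finset.insert_subset (hFX ha) hP) (Finset.insert_nonempty _ _) ?_ ?_
        ⟨r, hr, fun h => hrF (Finset.mem_of_mem_erase h), ?_⟩
      · intro p hp h
        rcases Finset.mem_insert.1 hp with rfl | hp
        · exact (Finset.mem_erase.1 h).1 rfl
        · exact hPF p hp (Finset.mem_of_mem_erase h)
      · intro p hp z hz hzF hpz
        rcases Finset.mem_insert.1 hp with rfl | hp
        · have hzF' : z ∉ F := fun h => hzF (Finset.mem_erase.2 ⟨hpz.ne.symm, h⟩)
          by_contra hzP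
          rw [Finset.mem_insert, not_or] at hzP
          exact haz z hz hzF' hzP.2 hpz
        · by_cases hza : z = a
          · rw [hza]; exact Finset.mem_insert_self a P
          · refine Finset.mem_insert_of_mem (hcl p hp z hz (fun h => ?_) hpz)
            exact hzF (Finset.mem_erase.2 ⟨hza, h⟩)
      · rw [Finset.mem_insert, not_or]
        exact ⟨fun h => hrF (h ▸ ha), hrP⟩
    push Not at hi hii
    rcases Nat.eq_zero_or_pos n with hn0 | hn0
    · -- a single vertex
      subst hn0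
      obtain ⟨c, rfl⟩ := Finset.card_eq_one.1 hn
      have hc : c ∈ X := hFX (Finset.mem_singleton_self c)
      have hconn := Pool.Agent.W605.FS.Del.main α inferInstance H d X c hX hc
      have hP' : P ⊆ X.erase c := fun p hp => Finset.mem_erase.2
        ⟨fun h => hPF p hp (by rw [h]; exact Finset.mem_singleton_self c), hP hp⟩
      have hr' : r ∈ X.erase c := Finset.mem_erase.2
        ⟨fun h => hrF (by rw [h]; exact Finset.mem_singleton_self c), hr⟩
      obtain ⟨a, ha, b, hb, hbP, hab⟩ := hconn P hP' hne (fun h => hrP (h ▸ hr'))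
      obtain ⟨hbc, hbX⟩ := Finset.mem_erase.1 hb
      exact hbP (hcl a ha b hbX (fun h => hbc (Finset.mem_singleton.1 h)) hab)
    · obtain ⟨a, ha⟩ : F.Nonempty := by rw [← Finset.card_pos]; omega
      obtain ⟨p0, hp0, hp0a⟩ := hi a ha
      obtain ⟨r0, hr0, hr0F, hr0P, har0⟩ := hii a ha
      have hp0L : p0 ∈ lk H X a := mem_lk.2 ⟨hP hp0, hp0a.symm⟩
      have hr0L : r0 ∈ lk H X a := mem_lk.2 ⟨hr0, har0⟩
      have hlk := hX.lk (hFX ha)
      rcases d with _ | d
      · have h2 : (lk H X a).card = 2 := hlk.1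
        obtain ⟨b, hb⟩ : (F.erase a).Nonempty := by
          rw [← Finset.card_pos, Finset.card_erase_of_mem ha]; omega
        obtain ⟨hba, hbF⟩ := Finset.mem_erase.1 hb
        have hbL : b ∈ lk H X a := mem_lk.2 ⟨hFX hbF, hFc a ha b hbF hba.symm⟩
        have h3 : ({p0, r0, b} : Finset α) ⊆ lk H X a := by
          intro z hz
          simp only [Finset.mem_insert, Finset.mem_singleton] at hz
          rcases hz with rfl | rfl | rfl
          · exact hp0L
          · exact hr0L
          · exact hbL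
        have h4 : ({p0, r0, b} : Finset α).card = 3 := by
          rw [Finset.card_eq_three]
          exact ⟨p0, r0, b, fun h => hr0P (h ▸ hp0), fun h => hPF p0 hp0 (h ▸ hbF),
            fun h => hr0F (h ▸ hbF), rfl⟩
        have := Finset.card_le_card h3
        omega
      · refine ih d (X := lk H X a) (F := F.erase a) (P := P ∩ lk H X a)
          (by rw [Finset.card_erase_of_mem ha]; omega) hlk (mem_cl.2 ⟨fun b hb => ?_,
            fun x hx y hy => hFc x (Finset.mem_of_mem_erase hx) y (Finset.mem_of_mem_erase hy)⟩)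
          Finset.inter_subset_right ⟨p0, Finset.mem_inter.2 ⟨hp0, hp0L⟩⟩ ?_ ?_
          ⟨r0, hr0L, fun h => hr0F (Finset.mem_of_mem_erase h), fun h =>
            hr0P (Finset.mem_inter.1 h).1⟩
        · obtain ⟨hba, hbF⟩ := Finset.mem_erase.1 hb
          exact mem_lk.2 ⟨hFX hbF, hFc a ha b hbF hba.symm⟩
        · intro p hp h
          exact hPF p (Finset.mem_inter.1 hp).1 (Finset.mem_of_mem_erase h)
        · intro p hp z hz hzF hpz
          refine Finset.mem_inter.2 ⟨hcl p (Finset.mem_inter.1 hp).1 z (lk_subset hz) (fun h => ?_)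
            hpz, hz⟩
          exact hzF (Finset.mem_erase.2 ⟨fun h1 => not_mem_lk_self (h1 ▸ hz), h⟩)

open scoped Classical in
/-- the vertices outside `U` adjacent to `U` -/
noncomputable def bdy (H : SimpleGraph α) (X U : Finset α) : Finset α :=
  X.filter (fun w => w ∉ U ∧ ∃ u ∈ U, H.Adj w u)

theorem mem_bdy {X U : Finset α} {w : α} :
    w ∈ bdy H X U ↔ w ∈ X ∧ w ∉ U ∧ ∃ u ∈ U, H.Adj w u := by
  classical
  rw [bdy, Finset.mem_filter]

/-- **vertex cuts**: if `U` does not dominate the complex of rank `d + 1`, then at least `2 d`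
vertices outside `U` are adjacent to `U` -/
theorem two_mul_le_bdy (d : ℕ) : ∀ {X U : Finset α}, NP H (d + 1) X → U ⊆ X → U.Nonempty →
    (∃ z ∈ X, z ∉ U ∧ ∀ u ∈ U, ¬ H.Adj z u) → 2 * d ≤ (bdy H X U).card := by
  induction d with
  | zero => intro X U _ _ _ _; omega
  | succ d ih =>
    intro X U hX hU hne ⟨z, hz, hzU, hzadj⟩
    classical
    let B : Finset α := X.filter (fun b => b ∉ U ∧ b ∉ bdy H X U)
    let A : Finset α := (bdy H X U).filter (fun a => ∃ b ∈ B, H.Adj a b)
    have hzB : z ∈ B := Finset.mem_filter.2 ⟨hz, hzU, fun h => by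
      obtain ⟨-, -, u, hu, hzu⟩ := mem_bdy.1 h
      exact hzadj u hu hzu⟩
    have hAX : A ⊆ X := fun a ha => (mem_bdy.1 (Finset.mem_filter.1 ha).1).1
    have hnot : A ∉ cl H X := by
      intro hA
      obtain ⟨u, hu⟩ := hne
      refine clique_no_sep A.card d (P := B) rfl hX hA (Finset.filter_subset _ _) ⟨z, hzB⟩ ?_ ?_
        ⟨u, hU hu, ?_, ?_⟩
      · intro p hp h
        exact (Finset.mem_filter.1 hp).2.2 (Finset.mem_filter.1 h).1
      · intro p hp y hy hyA hpy
        obtain ⟨h1, h2, h3⟩ := Finset.mem_filter.1 hp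
        refine Finset.mem_filter.2 ⟨hy, fun h => h3 (mem_bdy.2 ⟨h1, h2, y, h, hpy⟩), fun h => ?_⟩
        exact hyA (Finset.mem_filter.2 ⟨h, p, hp, hpy.symm⟩)
      · intro h
        exact (mem_bdy.1 (Finset.mem_filter.1 h).1).2.1 hu
      · intro h
        exact (Finset.mem_filter.1 h).2.1 hu
    have h1 : ∃ a ∈ A, ∃ a' ∈ A, a ≠ a' ∧ ¬ H.Adj a a' := by
      by_contra hcon
      push Not at hcon
      exact hnot (mem_cl.2 ⟨hAX, hcon⟩)
    obtain ⟨a, ha, a', ha', hne', hnadj⟩ := h1
    obtain ⟨haD, b, hbB, hab⟩ := Finset.mem_filter.1 ha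
    obtain ⟨haX, haU, u, hu, hau⟩ := mem_bdy.1 haD
    obtain ⟨hbX, hbU, hbD⟩ := Finset.mem_filter.1 hbB
    have h2 := ih (X := lk H X a) (U := U ∩ lk H X a) (hX.lk haX) Finset.inter_subset_right
      ⟨u, Finset.mem_inter.2 ⟨hu, mem_lk.2 ⟨hU hu, hau⟩⟩⟩
      ⟨b, mem_lk.2 ⟨hbX, hab⟩, fun h => hbU (Finset.mem_inter.1 h).1, fun w hw hbw =>
        hbD (mem_bdy.2 ⟨hbX, hbU, w, (Finset.mem_inter.1 hw).1, hbw⟩)⟩
    have h3 : bdy H (lk H X a) (U ∩ lk H X a) ⊆ ((bdy H X U).erase a).erase a' := by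
      intro w hw
      obtain ⟨hwL, hwU, u', hu', hwu'⟩ := mem_bdy.1 hw
      obtain ⟨hwX, haw⟩ := mem_lk.1 hwL
      refine Finset.mem_erase.2 ⟨fun h => hnadj (h ▸ haw), Finset.mem_erase.2 ⟨haw.ne.symm,
        mem_bdy.2 ⟨hwX, fun h => hwU (Finset.mem_inter.2 ⟨h, hwL⟩), u',
          (Finset.mem_inter.1 hu').1, hwu'⟩⟩⟩
    have ha'D : a' ∈ (bdy H X U).erase a := Finset.mem_erase.2
      ⟨hne'.symm, (Finset.mem_filter.1 ha').1⟩
    have h4 := Finset.card_le_card h3
    have h5 := Finset.card_pos.2 ⟨a', ha'D⟩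
    rw [Finset.card_erase_of_mem ha'D] at h4
    rw [Finset.card_erase_of_mem haD] at h4 h5
    omega

open scoped Classical in
/-- the suspension vertices: those with exactly one non-neighbour -/
noncomputable def sus (H : SimpleGraph α) (L : Finset α) : Finset α :=
  L.filter (fun u => (nn H L u).card = 1)

theorem mem_sus {L : Finset α} {u : α} : u ∈ sus H L ↔ u ∈ L ∧ (nn H L u).card = 1 := by
  classical
  rw [sus, Finset.mem_filter]

theorem nn_left {A B : Finset α} (hAB : Full H A B) {a : α} (ha : a ∈ A) :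
    nn H (A ∪ B) a = nn H A a := by
  ext x
  rw [mem_nn, mem_nn, Finset.mem_union]
  constructor
  · rintro ⟨h1 | h1, h2, h3⟩
    · exact ⟨h1, h2, h3⟩
    · exact absurd (hAB a ha x h1) h3
  · rintro ⟨h1, h2, h3⟩
    exact ⟨Or.inl h1, h2, h3⟩

theorem sus_union {A B : Finset α} (hAB : Full H A B) : sus H A ∪ sus H B ⊆ sus H (A ∪ B) := by
  intro u hu
  rcases Finset.mem_union.1 hu with h | h
  · obtain ⟨h1, h2⟩ := mem_sus.1 h
    refine mem_sus.2 ⟨Finset.mem_union_left _ h1, ?_⟩
    rw [nn_left hAB h1]; exact h2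
  · obtain ⟨h1, h2⟩ := mem_sus.1 h
    refine mem_sus.2 ⟨Finset.mem_union_right _ h1, ?_⟩
    rw [Finset.union_comm, nn_left hAB.symm h1]; exact h2

theorem card_sus_union {A B : Finset α} (hAB : Full H A B) :
    (sus H A).card + (sus H B).card ≤ (sus H (A ∪ B)).card := by
  rw [← Finset.card_union_of_disjoint]
  · exact Finset.card_le_card (sus_union hAB)
  · exact Finset.disjoint_of_subset_left (fun u hu => (mem_sus.1 hu).1)
      (Finset.disjoint_of_subset_right (fun u hu => (mem_sus.1 hu).1) hAB.disjoint)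

/-- each join factor of rank at least two has at least `5/2` vertices per rank -/
theorem ten_mul_le {D : ℕ} {L : Finset α} (h : NP H D L) :
    10 * D ≤ 4 * L.card + (sus H L).card := by
  refine join_induction (H := H) (P := fun D L => 10 * D ≤ 4 * L.card + (sus H L).card) ?_ ?_ ?_ h
  · omega
  · intro d W hW hp _
    rcases d with _ | d
    · have h2 : W.card = 2 := hW.1
      have h3 : sus H W = W := by
        ext u
        rw [mem_sus]
        refine ⟨fun h => h.1, fun hu => ⟨hu, ?_⟩⟩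
        have h4 := card_eq_lk_nn (H := H) hu
        have h5 : lk H W u = ∅ := hW.lk hu
        rw [h5, Finset.card_empty] at h4
        omega
      rw [h3]
      omega
    · have := Prm.three_mul_le hW hp
      omega
  · intro d₁ d₂ A B hA hB _ hAB h1 h2
    have h3 := card_sus_union hAB
    have h4 := Finset.card_union_of_disjoint hAB.disjoint
    omega

end Pool.Agent.TH417.Gal
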