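import Pool.Agent.TH417.Gal.C

set_option autoImplicit false
set_option linter.unusedSectionVars false
set_option linter.unusedVariables false

/-! # Irreducible flag normal pseudomanifolds: the inequality at a vertex -/

namespace Pool.Agent.TH417.Gal

open Pool.Agent.W497.FS

variable {α : Type} [DecidableEq α] {H : SimpleGraph α}

/-- irreducible: no inverse edge subdivision, not a suspension -/
structure Red (H : SimpleGraph α) (W : Finset α) : Prop where
  nosd : ∀ v x x', ¬ SD H W v x x'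
  nosus : ∀ q ∈ W, (nn H W q).card ≠ 1

theorem Red.exists_z {D : ℕ} {W : Finset α} (hr : Red H W) (hW : NP H (D + 1) W) {v x x' : α}
    (hv : v ∈ W) (hx : x ∈ lk H W v) (hn : nn H (lk H W v) x = {x'}) :
    ∃ z ∈ W, z ≠ v ∧ ¬ H.Adj v z ∧ H.Adj z x ∧ H.Adj z x' := by
  by_contra hcon
  push Not at hcon
  have hx' : x' ∈ nn H (lk H W v) x := by rw [hn]; exact Finset.mem_singleton_self x'
  obtain ⟨h1, h2, h3⟩ := mem_nn.1 hx'
  refine hr.nosd v x x' ⟨hv, lk_subset hx, lk_subset h1, (mem_lk.1 hx).2, (mem_lk.1 h1).2, h2.symm,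
    h3, ?_, ?_⟩
  · intro u hu hvu hux hux'
    have huL : u ∈ lk H W v := mem_lk.2 ⟨hu, hvu⟩
    have hadj : H.Adj x u := by
      by_contra h4
      have : u ∈ nn H (lk H W v) x := mem_nn.2 ⟨huL, hux, h4⟩
      rw [hn, Finset.mem_singleton] at this
      exact hux' this
    exact ⟨hadj.symm, (adj_of_nn_singleton (hW.lk hv) hx hn (mem_lk.2 ⟨huL, hadj⟩)).symm⟩
  · intro z hz hzx hzx' hzv
    by_contra h4
    exact hcon z hz hzv h4 hzx hzx'

/-- at most one of the two directions -/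
theorem Red.not_both {D : ℕ} {W : Finset α} (hr : Red H W) (hW : NP H (D + 1) W) {v x : α}
    (hv : v ∈ W) (hx : x ∈ lk H W v) (hn : (nn H (lk H W v) x).card = 1) :
    (nn H (lk H W x) v).card ≠ 1 := by
  intro hn2
  obtain ⟨x', hx'⟩ := Finset.card_eq_one.1 hn
  obtain ⟨z, hz, hzv, hvz, hzx, hzx'⟩ := hr.exists_z hW hv hx hx'
  obtain ⟨hxW, hvx⟩ := mem_lk.1 hx
  have hvL : v ∈ lk H W x := mem_lk.2 ⟨hv, hvx.symm⟩
  have hzn : z ∈ nn H (lk H W x) v := mem_nn.2 ⟨mem_lk.2 ⟨hz, hzx.symm⟩, hzv, hvz⟩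
  have hnz : nn H (lk H W x) v = {z} := by
    obtain ⟨t, ht⟩ := Finset.card_eq_one.1 hn2
    rw [ht, Finset.mem_singleton] at hzn
    rw [ht, hzn]
  have hsub : lk H W v ⊆ lk H W z := by
    intro u hu
    obtain ⟨huW, hvu⟩ := mem_lk.1 hu
    refine mem_lk.2 ⟨huW, ?_⟩
    by_cases h1 : u = x
    · rw [h1]; exact hzx
    by_cases h2 : H.Adj x u
    · exact adj_of_nn_singleton (hW.lk hxW) hvL hnz (mem_lk.2 ⟨mem_lk.2 ⟨huW, h2⟩, hvu⟩)
    · have h3 : u ∈ nn H (lk H W v) x := mem_nn.2 ⟨hu, h1, h2⟩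
      rw [hx', Finset.mem_singleton] at h3
      rw [h3]; exact hzx'
  have := nn_of_lk_subset hW hv hz hzv.symm hsub
  exact hr.nosus v hv (by rw [this, Finset.card_singleton])

/-- no vertex is adjacent to the whole link of another one -/
theorem Red.exists_nonadj {D : ℕ} {W : Finset α} (hr : Red H W) (hW : NP H (D + 1) W) {x p : α}
    (hx : x ∈ W) (hp : p ∈ W) (hxp : x ≠ p) : ∃ y ∈ lk H W x, ¬ H.Adj p y := by
  by_contra hcon
  push Not at hcon
  have := nn_of_lk_subset hW hx hp hxp (fun y hy => mem_lk.2 ⟨lk_subset hy, hcon y hy⟩)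
  exact hr.nosus x hx (by rw [this, Finset.card_singleton])

open scoped Classical in
/-- the vertices `v` adjacent to `x` for which `x` is a suspension vertex of the link of `v` -/
noncomputable def inn (H : SimpleGraph α) (W : Finset α) (x : α) : Finset α :=
  (lk H W x).filter (fun v => (nn H (lk H W v) x).card = 1)

theorem mem_inn {W : Finset α} {x v : α} :
    v ∈ inn H W x ↔ v ∈ lk H W x ∧ (nn H (lk H W v) x).card = 1 := by
  classical
  rw [inn, Finset.mem_filter]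

/-- the antipode of `x` in the link of an in-neighbour `v` -/
theorem inn_anti {D : ℕ} {W : Finset α} (hW : NP H (D + 1) W) {x v : α} (hx : x ∈ W)
    (hv : v ∈ inn H W x) : ∃ p ∈ W, p ≠ x ∧ ¬ H.Adj x p ∧ H.Adj p v ∧
      (∀ u ∈ lk H W x, H.Adj u v → H.Adj p u) ∧
      ∀ q ∈ W, q ≠ x → ¬ H.Adj x q → H.Adj q v → q = p := by
  obtain ⟨h1, h2⟩ := mem_inn.1 hv
  obtain ⟨p, hp⟩ := Finset.card_eq_one.1 h2
  obtain ⟨hvW, hxv⟩ := mem_lk.1 h1
  have hpm : p ∈ nn H (lk H W v) x := by rw [hp]; exact Finset.mem_singleton_self p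
  obtain ⟨h3, h4, h5⟩ := mem_nn.1 hpm
  obtain ⟨hpW, hvp⟩ := mem_lk.1 h3
  have hxL : x ∈ lk H W v := mem_lk.2 ⟨hx, hxv.symm⟩
  refine ⟨p, hpW, h4, h5, hvp.symm, fun u hu huv => ?_, fun q hq h6 h7 h8 => ?_⟩
  · obtain ⟨huW, hxu⟩ := mem_lk.1 hu
    exact adj_of_nn_singleton (hW.lk hvW) hxL hp (mem_lk.2 ⟨mem_lk.2 ⟨huW, huv.symm⟩, hxu⟩)
  · have : q ∈ nn H (lk H W v) x := mem_nn.2 ⟨mem_lk.2 ⟨hq, h8.symm⟩, h6, h7⟩
    rw [hp, Finset.mem_singleton] at this
    exact this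

/-- adjacent in-neighbours in a polygon factor do not exist -/
theorem Red.polygon {D : ℕ} {W : Finset α} (hr : Red H W) (hW : NP H (D + 1) W) {x : α}
    (hx : x ∈ W) {C B : Finset α} (hCB : C ∪ B = lk H W x) (hf : Full H C B)
    (hC : NP H 2 C) {u v : α} (hu : u ∈ C) (hv : v ∈ C) (hui : u ∈ inn H W x)
    (hvi : v ∈ inn H W x) : ¬ H.Adj u v := by
  intro huv
  have key : ∀ u v : α, u ∈ C → v ∈ C → u ∈ inn H W x → H.Adj u v →
      (nn H (lk H W u) v).card = 1 := by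
    intro u v hu hv hui huv
    obtain ⟨p, hpW, hpx, hxp, hpu, h1, h2⟩ := inn_anti hW hx hui
    have hCL : C ⊆ lk H W x := by rw [← hCB]; exact Finset.subset_union_left
    obtain ⟨huW, hxu⟩ := mem_lk.1 (hCL hu)
    obtain ⟨hvW, hxv⟩ := mem_lk.1 (hCL hv)
    have hCu : (lk H C u).card = 2 := (hC.lk hu).1
    have hsub : nn H (lk H W u) v ⊆ (lk H C u).erase v := by
      intro w hw
      obtain ⟨h3, h4, h5⟩ := mem_nn.1 hw
      obtain ⟨hwW, huw⟩ := mem_lk.1 h3
      refine Finset.mem_erase.2 ⟨h4, mem_lk.2 ⟨?_, huw⟩⟩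
      by_cases hwx : w = x
      · rw [hwx] at h5; exact absurd hxv.symm h5
      by_cases hxw : H.Adj x w
      · have h6 : w ∈ C ∪ B := by rw [hCB]; exact mem_lk.2 ⟨hwW, hxw⟩
        rcases Finset.mem_union.1 h6 with h7 | h7
        · exact h7
        · exact absurd (hf v hv w h7) h5
      · have h6 := h2 w hwW hwx hxw huw.symm
        rw [h6] at h5
        exact absurd (h1 v (hCL hv) huv.symm).symm h5
    have h6 := Finset.card_le_card hsub
    rw [Finset.card_erase_of_mem (mem_lk.2 ⟨hv, huv⟩), hCu] at h6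
    have h7 := Finset.card_pos.2 ((hW.lk huW).nn_nonempty (mem_lk.2 ⟨hvW, huv⟩))
    omega
  have hCL : C ⊆ lk H W x := by rw [← hCB]; exact Finset.subset_union_left
  obtain ⟨huW, hxu⟩ := mem_lk.1 (hCL hu)
  obtain ⟨hvW, hxv⟩ := mem_lk.1 (hCL hv)
  exact hr.not_both hW huW (mem_lk.2 ⟨hvW, huv⟩) (key u v hu hv hui huv)
    (key v u hv hu hvi huv.symm)

/-- an independent set in a pentagon has at most two vertices -/
theorem pentagon_indep {C I : Finset α} (hC : NP H 2 C) (hc : C.card = 5) (hI : I ⊆ C)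
    (hind : ∀ u ∈ I, ∀ v ∈ I, ¬ H.Adj u v) : I.card ≤ 2 := by
  by_contra hcon
  push Not at hcon
  have h1 : (C \ I).card ≤ 2 := by
    rw [Finset.card_sdiff_of_subset hI]; omega
  have h2 : ∀ a ∈ I, lk H C a = C \ I := by
    intro a ha
    refine Finset.eq_of_subset_of_card_le (fun w hw => ?_) ?_
    · obtain ⟨h3, h4⟩ := mem_lk.1 hw
      exact Finset.mem_sdiff.2 ⟨h3, fun h5 => hind a ha w h5 h4⟩
    · have : (lk H C a).card = 2 := (hC.lk (hI ha)).1
      omega
  obtain ⟨a, ha⟩ : I.Nonempty := by rw [← Finset.card_pos]; omega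
  obtain ⟨p, hp⟩ : (lk H C a).Nonempty := by
    have : (lk H C a).card = 2 := (hC.lk (hI ha)).1
    rw [← Finset.card_pos]; omega
  have hpC := (mem_lk.1 hp).1
  rw [h2 a ha] at hp
  have h3 : I ⊆ lk H C p := by
    intro b hb
    rw [← h2 b hb] at hp
    exact mem_lk.2 ⟨hI hb, (mem_lk.1 hp).2.symm⟩
  have h4 := Finset.card_le_card h3
  have : (lk H C p).card = 2 := (hC.lk hpC).1
  omega

/-- **the inequality at a vertex** -/
theorem Red.vertex {D : ℕ} {W : Finset α} (hr : Red H W) (hW : NP H (D + 1) W) {x : α}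
    (hx : x ∈ W) :
    (inn H W x).card + 10 * D ≤ 4 * (lk H W x).card + (sus H (lk H W x)).card + 2 := by
  have hL := hW.lk hx
  rcases (inn H W x).eq_empty_or_nonempty with h0 | ⟨v, hv⟩
  · have := ten_mul_le hL
    rw [h0, Finset.card_empty]
    omega
  obtain ⟨hvL, hvn⟩ := mem_inn.1 hv
  obtain ⟨hvW, hxv⟩ := mem_lk.1 hvL
  obtain ⟨p, hpW, hpx, hxp, hpv, hpu, -⟩ := inn_anti hW hx hv
  obtain ⟨C, hC, hvC⟩ := exists_comp (H := H) hvL
  obtain ⟨hCL, hCp, hCadj⟩ := mem_comps.1 hC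
  have hf : Full H C (lk H W x \ C) := fun a ha b hb =>
    hCadj a ha b (Finset.mem_sdiff.1 hb).1 (Finset.mem_sdiff.1 hb).2
  have hCB : C ∪ (lk H W x \ C) = lk H W x := Finset.union_sdiff_of_subset hCL
  set B := lk H W x \ C with hB
  have hL' : NP H D (C ∪ B) := by rw [hCB]; exact hL
  obtain ⟨e, e', hee, hNC, hNB⟩ := hL'.split hf
  obtain ⟨e1, rfl⟩ := hNC.rank_pos hvC
  obtain ⟨y, hyL, hpy⟩ := hr.exists_nonadj hW hx hpW hpx.symm
  -- in-neighbours lie in `C`
  have hinC : inn H W x ⊆ C := by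
    intro w hw
    by_contra hwC
    obtain ⟨hwL, hwn⟩ := mem_inn.1 hw
    have hwB : w ∈ B := Finset.mem_sdiff.2 ⟨hwL, hwC⟩
    obtain ⟨q, hqW, hqx, hxq, hqw, hqu, hqq⟩ := inn_anti hW hx hw
    have hpw : H.Adj p w := hpu w hwL (hf v hvC w hwB).symm
    have hpq : p = q := hqq p hpW hpx hxp hpw
    have hyL' : y ∈ C ∪ B := by rw [hCB]; exact hyL
    rcases Finset.mem_union.1 hyL' with hy | hy
    · exact hpy (by rw [hpq]; exact hqu y hyL (hf y hy w hwB))
    · exact hpy (hpu y hyL (hf v hvC y hy).symm)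
  have hyC : y ∈ C := by
    have hyL' : y ∈ C ∪ B := by rw [hCB]; exact hyL
    rcases Finset.mem_union.1 hyL' with hy | hy
    · exact hy
    · exact absurd (hpu y hyL (hf v hvC y hy).symm) hpy
  -- the rank of `C` is at least two
  rcases e1 with _ | e0
  · exfalso
    have h2 : C.card = 2 := hNC.1
    have h3 := card_eq_lk_nn (H := H) hvC
    have h4 : lk H C v = ∅ := hNC.lk hvC
    rw [h4, Finset.card_empty] at h3
    have h5 : nn H (lk H W x) v = nn H C v := by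
      rw [← hCB]; exact nn_left hf hvC
    refine hr.not_both hW hvW (mem_lk.2 ⟨hx, hxv.symm⟩) hvn ?_
    rw [h5]; omega
  -- the in-neighbours with antipode `p`
  have hanti : ∀ u ∈ inn H W x, H.Adj p u → ∀ w ∈ lk H W x, H.Adj w u → H.Adj p w := by
    intro u hu hpu' w hw hwu
    obtain ⟨q, hqW, hqx, hxq, hqu', hqw, hqq⟩ := inn_anti hW hx hu
    rw [hqq p hpW hpx hxp hpu']
    exact hqw w hw hwu
  classical
  set U := (inn H W x).filter (fun u => H.Adj p u) with hU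
  have hUC : U ⊆ C := (Finset.filter_subset _ _).trans hinC
  have hcut : 2 * (e0 + 1) ≤ (bdy H C U).card := by
    refine two_mul_le_bdy (e0 + 1) hNC hUC ⟨v, Finset.mem_filter.2 ⟨hv, hpv⟩⟩ ⟨y, hyC, ?_, ?_⟩
    · intro hyU
      exact hpy (Finset.mem_filter.1 hyU).2
    · intro u hu hyu
      obtain ⟨hu1, hu2⟩ := Finset.mem_filter.1 hu
      exact hpy (hanti u hu1 hu2 y hyL hyu)
  have hdisj : Disjoint (inn H W x) (bdy H C U) := by
    rw [Finset.disjoint_left]
    intro w hw hwb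
    obtain ⟨hwC, hwU, u, hu, hwu⟩ := mem_bdy.1 hwb
    obtain ⟨hu1, hu2⟩ := Finset.mem_filter.1 hu
    exact hwU (Finset.mem_filter.2 ⟨hw, hanti u hu1 hu2 w (hCL hwC) hwu⟩)
  have hcount : (inn H W x).card + (bdy H C U).card ≤ C.card := by
    rw [← Finset.card_union_of_disjoint hdisj]
    refine Finset.card_le_card (Finset.union_subset hinC (fun w hw => (mem_bdy.1 hw).1))
  have hprm : 3 * (e0 + 2) ≤ C.card + 1 := Prm.three_mul_le hNC hCp
  have hB1 := ten_mul_le hNB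
  have hS : (sus H B).card ≤ (sus H (lk H W x)).card := by
    have := card_sus_union hf
    rw [hCB] at this
    omega
  have hcard : (lk H W x).card = C.card + B.card := by
    rw [← hCB, Finset.card_union_of_disjoint hf.disjoint]
  by_cases h5 : e0 = 0 ∧ C.card = 5
  · obtain ⟨rfl, h5⟩ := h5
    have h6 := pentagon_indep hNC h5 hinC (fun u hu w hw =>
      hr.polygon hW hx hCB hf hNC (hinC hu) (hinC hw) hu hw)
    omega
  · omega

end Pool.Agent.TH417.Gal
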