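import Pool.Agent.TH417.Gal.D
import Pool.Agent.W497.FS.Few

set_option autoImplicit false
set_option linter.unusedSectionVars false
set_option linter.unusedVariables false

/-! # The lower bound for the number of edges of a flag normal pseudomanifold -/

namespace Pool.Agent.TH417.Gal

open Pool.Agent.W497.FS

variable {α : Type} [DecidableEq α]

theorem sum_inn_eq {H : SimpleGraph α} {W : Finset α} :
    ∑ x ∈ W, (inn H W x).card = ∑ v ∈ W, (sus H (lk H W v)).card := by
  classical
  have h1 : ∀ x ∈ W, (inn H W x).card =
      ∑ v ∈ W, if H.Adj v x ∧ (nn H (lk H W v) x).card = 1 then 1 else 0 := by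
    intro x hx
    rw [← Finset.card_filter]
    congr 1
    ext v
    rw [mem_inn, mem_lk, Finset.mem_filter, H.adj_comm]
    tauto
  have h2 : ∀ v ∈ W, (sus H (lk H W v)).card =
      ∑ x ∈ W, if H.Adj v x ∧ (nn H (lk H W v) x).card = 1 then 1 else 0 := by
    intro v hv
    rw [← Finset.card_filter]
    congr 1
    ext x
    rw [mem_sus, mem_lk, Finset.mem_filter]
    tauto
  rw [Finset.sum_congr rfl h1, Finset.sum_congr rfl h2, Finset.sum_comm]

/-- **the number of edges of a flag normal pseudomanifold**: `4 f₁ ≥ (5 d - 6) f₀ - 2 d (d - 2)` -/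
theorem edges (n : ℕ) : ∀ (d : ℕ) (H : SimpleGraph α) (W : Finset α), W.card = n → NP H d W →
    (5 * (d : ℤ) - 6) * W.card ≤ 2 * dg H W + 2 * d * (d - 2) := by
  induction n using Nat.strong_induction_on with
  | _ n ih =>
    intro d H W hn hW
    subst hn
    have h2d := hW.two_mul_le
    rcases d with _ | _ | D
    · have h0 : W = ∅ := hW
      subst h0
      simp [dg]
    · have h1 : W.card = 2 := hW.1
      have h2 : (0 : ℤ) ≤ dg H W := by positivity
      rw [h1]
      push_cast
      omega
    · by_cases hsd : ∃ v x x', SD H W v x x'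
      · obtain ⟨v, x, x', h⟩ := hsd
        have h1 := h.np hW
        have h2 := h.dg_eq hW
        have h3 : (W.erase v).card + 1 = W.card := Finset.card_erase_add_one h.hv
        have h4 := ih (W.erase v).card (by omega) _ _ _ rfl h1
        have h5 := (hW.lk h.hv).two_mul_le
        have h6 : (W.card : ℤ) = (W.erase v).card + 1 := by exact_mod_cast h3.symm
        have h7 : (dg H W : ℤ) = dg (addE H x x') (W.erase v) + 2 * (lk H W v).card - 2 := by
          have : ((dg H W + 2 : ℕ) : ℤ) =
            ((dg (addE H x x') (W.erase v) + 2 * (lk H W v).card : ℕ) : ℤ) := by rw [h2]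
          push_cast at this
          linarith
        have h8 : (2 * ((D : ℤ) + 1)) ≤ (lk H W v).card := by exact_mod_cast h5
        rw [h7, h6]
        push_cast at h4 ⊢
        nlinarith
      by_cases hq : ∃ q ∈ W, (nn H W q).card = 1
      · obtain ⟨q, hq, hq1⟩ := hq
        obtain ⟨p, hp⟩ := Finset.card_eq_one.1 hq1
        obtain ⟨h1, h2⟩ := susp_dg hW hq hp
        have h3 := ih (lk H W q).card (by omega) _ _ _ rfl (hW.lk hq)
        have h4 := (hW.lk hq).two_mul_le
        have h5 : (W.card : ℤ) = (lk H W q).card + 2 := by exact_mod_cast h2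
        have h6 : (dg H W : ℤ) = dg H (lk H W q) + 4 * (lk H W q).card := by exact_mod_cast h1
        have h7 : (2 * ((D : ℤ) + 1)) ≤ (lk H W q).card := by exact_mod_cast h4
        rw [h6, h5]
        push_cast at h3 ⊢
        nlinarith
      · push Not at hsd hq
        have hr : Red H W := ⟨hsd, hq⟩
        have h1 : ∑ x ∈ W, ((inn H W x).card + 10 * (D + 1)) ≤
            ∑ x ∈ W, (4 * (lk H W x).card + (sus H (lk H W x)).card + 2) :=
          Finset.sum_le_sum (fun x hx => hr.vertex hW hx)
        have h4 : ∑ x ∈ W, 4 * (lk H W x).card = 4 * dg H W := by rw [dg, Finset.mul_sum]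
        rw [Finset.sum_add_distrib, Finset.sum_add_distrib, Finset.sum_add_distrib, h4,
          Finset.sum_const, Finset.sum_const, sum_inn_eq, smul_eq_mul, smul_eq_mul] at h1
        have h2 : W.card * (10 * (D + 1)) ≤ 4 * dg H W + W.card * 2 := by
          omega
        have h3 : (W.card : ℤ) * (10 * (D + 1)) ≤ 4 * dg H W + W.card * 2 := by exact_mod_cast h2
        push_cast
        nlinarith [Nat.zero_le D]

end Pool.Agent.TH417.Gal
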