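import Pool.Agent.TH417.Gal.E
import Pool.Agent.W497.FS.Final

set_option autoImplicit false
set_option linter.unusedSectionVars false
set_option linter.unusedVariables false

/-! # The coefficients `γ₁`, `γ₂` in terms of vertices and edges -/

namespace Pool.Agent.TH417.Gal

open Pool.Agent.W497.FS Polynomial

theorem y_coeff (n : ℕ) : (y ^ n).coeff 0 = 1 ∧ (y ^ n).coeff 1 = 2 * n ∧
    (y ^ n).coeff 2 = 2 * n * (n - 1) := by
  induction n with
  | zero => simp [coeff_one]
  | succ n ih =>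
    obtain ⟨h0, h1, h2⟩ := ih
    have e : y ^ (n + 1) = y ^ n + C 2 * (y ^ n * X) := by
      rw [pow_succ, y]
      have : (C 2 : ℤ[X]) = 2 := rfl
      rw [this]; ring
    refine ⟨?_, ?_, ?_⟩
    · rw [e, coeff_add, coeff_C_mul, coeff_mul_X_zero, h0]; ring
    · rw [e, coeff_add, coeff_C_mul, coeff_mul_X, h1, h0]; push_cast; ring
    · rw [e, coeff_add, coeff_C_mul, coeff_mul_X, h2, h1]; push_cast; ring

theorem w_coeff (i : ℕ) (q : ℤ[X]) : (w ^ i * q).coeff 0 = (if i = 0 then q.coeff 0 else 0) ∧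
    (w ^ i * q).coeff 1 = (if i = 0 then q.coeff 1 else if i = 1 then q.coeff 0 else 0) ∧
    (w ^ i * q).coeff 2 = (if i = 0 then q.coeff 2 else if i = 1 then q.coeff 1 + q.coeff 0
      else if i = 2 then q.coeff 0 else 0) := by
  have hw : ∀ p : ℤ[X], (w * p).coeff 0 = 0 ∧ (w * p).coeff 1 = p.coeff 0 ∧
      (w * p).coeff 2 = p.coeff 1 + p.coeff 0 := by
    intro p
    have e : w * p = (p + p * X) * X := by rw [w]; ring
    refine ⟨?_, ?_, ?_⟩
    · rw [e, coeff_mul_X_zero]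
    · rw [e, coeff_mul_X, coeff_add, coeff_mul_X_zero, add_zero]
    · rw [e, coeff_mul_X, coeff_add, coeff_mul_X]
  rcases i with _ | _ | _ | i
  · simp
  · simp [hw]
  · have e : w ^ 2 * q = w * (w * q) := by ring
    simp [e, hw]
  · have e : w ^ (i + 3) * q = w * (w * (w * (w ^ i * q))) := by ring
    simp [e, hw]

theorem expansion_coeff {d : ℕ} (hd : 4 ≤ d) (a : ℕ → ℤ) {p : ℤ[X]}
    (hp : p = ∑ i ∈ Finset.range (d / 2 + 1), C (a i) * w ^ i * y ^ (d - 2 * i)) :
    p.coeff 0 = a 0 ∧ p.coeff 1 = 2 * d * a 0 + a 1 ∧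
      p.coeff 2 = 2 * d * (d - 1) * a 0 + (2 * d - 3) * a 1 + a 2 := by
  obtain ⟨m, hm⟩ : ∃ m, d / 2 + 1 = m + 3 := ⟨d / 2 - 2, by omega⟩
  have hterm : ∀ (k i : ℕ), (C (a i) * w ^ i * y ^ (d - 2 * i)).coeff k =
      a i * (w ^ i * y ^ (d - 2 * i)).coeff k := by
    intro k i
    rw [mul_assoc, coeff_C_mul]
  have hz : ∀ (k i : ℕ), k ≤ 2 → (C (a (i + 3)) * w ^ (i + 3) * y ^ (d - 2 * (i + 3))).coeff k = 0 := by
    intro k i hk
    obtain ⟨h0, h1, h2⟩ := w_coeff (i + 3) (y ^ (d - 2 * (i + 3)))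
    rw [hterm]
    have : k = 0 ∨ k = 1 ∨ k = 2 := by omega
    rcases this with rfl | rfl | rfl
    · rw [h0]; simp
    · rw [h1]; simp
    · rw [h2]; simp
  have hsum : ∀ k ≤ 2, p.coeff k = ∑ i ∈ Finset.range 3,
      (C (a i) * w ^ i * y ^ (d - 2 * i)).coeff k := by
    intro k hk
    rw [hp, finsetSum_coeff, hm, add_comm m 3, Finset.sum_range_add]
    rw [Finset.sum_eq_zero (s := Finset.range m), add_zero]
    intro i _
    rw [add_comm 3 i]
    exact hz k i hk
  obtain ⟨u0, u1, u2⟩ := y_coeff (d - 2 * 0)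
  obtain ⟨v0, v1, v2⟩ := y_coeff (d - 2 * 1)
  obtain ⟨t0, t1, t2⟩ := y_coeff (d - 2 * 2)
  have c0 : ((d - 2 * 0 : ℕ) : ℤ) = d := by simp
  have c1 : ((d - 2 * 1 : ℕ) : ℤ) = d - 2 := by
    rw [Nat.cast_sub (by omega)]; norm_num
  refine ⟨?_, ?_, ?_⟩
  · rw [hsum 0 (by norm_num)]
    simp only [Finset.sum_range_succ, Finset.sum_range_zero, hterm, (w_coeff _ _).1, u0]
    simp
  · rw [hsum 1 (by norm_num)]
    simp only [Finset.sum_range_succ, Finset.sum_range_zero, hterm, (w_coeff _ _).2.1, u1, v0, c0]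
    simp
    ring
  · rw [hsum 2 (by norm_num)]
    simp only [Finset.sum_range_succ, Finset.sum_range_zero, hterm, (w_coeff _ _).2.2, u2, v1, v0,
      t0, c0, c1]
    simp
    ring

variable {α : Type} [DecidableEq α] {H : SimpleGraph α}

theorem FP_coeff_zero (W : Finset α) : (FP H W).coeff 0 = 1 := by
  rw [coeff_zero_eq_eval_zero, FP_eval_zero]

theorem FP_coeff_one (W : Finset α) : (FP H W).coeff 1 = W.card := by
  have h := congrArg (fun p => p.coeff 0) (derivative_FP (H := H) W)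
  simp only [coeff_derivative, finsetSum_coeff, FP_coeff_zero, Finset.sum_const] at h
  simpa using h

theorem FP_coeff_two (W : Finset α) : 2 * (FP H W).coeff 2 = dg H W := by
  have h := congrArg (fun p => p.coeff 1) (derivative_FP (H := H) W)
  simp only [coeff_derivative, finsetSum_coeff, FP_coeff_one] at h
  rw [dg]
  push_cast at h ⊢
  linarith

theorem FP_coeff_two' (W : Finset α) :
    (FP H W).coeff 2 = ((cl H W).filter (fun σ => σ.card = 2)).card := by
  rw [FP, finsetSum_coeff, Finset.card_filter]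
  push_cast
  refine Finset.sum_congr rfl (fun σ _ => ?_)
  rw [coeff_X_pow]
  by_cases h : σ.card = 2
  · rw [if_pos h, if_pos h.symm]
  · rw [if_neg h, if_neg (fun h' => h h'.symm)]

theorem dg_eq_two_mul (W : Finset α) :
    (dg H W : ℤ) = 2 * ((cl H W).filter (fun σ => σ.card = 2)).card := by
  rw [← FP_coeff_two, FP_coeff_two']

/-- the number of edges of a flag normal pseudomanifold -/
theorem edges' {d : ℕ} {W : Finset α} (h : NP H d W) :
    (5 * (d : ℤ) - 6) * W.card - 2 * d * (d - 2) ≤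
      4 * ((cl H W).filter (fun σ => σ.card = 2)).card := by
  have h1 := edges _ d H W rfl h
  rw [dg_eq_two_mul] at h1
  linarith

variable {k : Type} [Field k] {n d : ℕ} {S : Finset (Finset (Fin n))}

/-- the gamma-vector in terms of the numbers of vertices and edges -/
theorem gamma_two (h : IsFlagSphere k d S) (hd : 4 ≤ d) {γ : ℕ → ℤ} (hγ : IsGamma d S γ) :
    γ 1 = (vert S).card - 2 * d ∧
      2 * γ 2 = dg (skel S) (vert S) - (4 * d - 6) * (vert S).card + 4 * d * (d - 2) := by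
  obtain ⟨a, ha, -⟩ := GT_coeffs (FP_mem_two h.np h.eul)
  obtain ⟨h0, h1, h2⟩ := expansion_coeff hd a ha
  rw [FP_coeff_zero] at h0
  rw [FP_coeff_one, ← h0] at h1
  have h3 := FP_coeff_two (H := skel S) (vert S)
  rw [h2, ← h0] at h3
  have e1 := h.gamma_eq hγ ha 1 (by omega)
  have e2 := h.gamma_eq hγ ha 2 (by omega)
  rw [e1, e2]
  refine ⟨by linarith, ?_⟩
  have h4 : a 1 = (vert S).card - 2 * d := by linarith
  rw [h4] at h3
  linarith

/-- the number of edges of a flag homology sphere -/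
theorem sphere_edges (h : IsFlagSphere k d S) :
    (5 * (d : ℤ) - 6) * numVert S - 2 * d * (d - 2) ≤
      4 * (S.filter (fun G => G.card = 2)).card := by
  have h1 := edges' h.np
  rw [h.cl_eq] at h1
  rw [numVert_eq]
  exact h1

/-- **a lower bound for `γ₂`** -/
theorem gamma_bound (h : IsFlagSphere k d S) (hd : 4 ≤ d) {γ : ℕ → ℤ} (hγ : IsGamma d S γ) :
    0 ≤ 4 * γ 2 + 3 * (d - 2) * γ 1 := by
  obtain ⟨h1, h2⟩ := gamma_two h hd hγ
  have h3 := edges _ d (skel S) (vert S) rfl h.np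
  have h4 : 4 * γ 2 = 2 * (2 * γ 2) := by ring
  rw [h4, h2, h1]
  linarith

end Pool.Agent.TH417.Gal
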